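import Pool.Agent.Helper14.TR.Defs
import Pool.Agent.Helper4.TR.Core

/-!
Project TR (MP_b8862a_ag), block TR-3b: orthonormal basis of the range of a self-adjoint idempotent for a complex
symmetric form; the core theorem in matrix form.
-/

set_option linter.unusedSectionVars false

open Matrix

namespace MH

variable {n : Type*} [Fintype n] [DecidableEq n]

theorem exists_orth {Q' : Matrix n n ℂ} (hQs : Q'ᵀ = Q') (hQd : Q'.det ≠ 0) {e : Matrix n n ℂ} (hee : e * e = e)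
    (hadj : eᵀ * Q' = Q' * e) :
    ∃ W : Matrix n (Fin e.rank) ℂ, Wᵀ * Q' * W = 1 ∧ W * (Wᵀ * Q') = e := by
  classical
  let V : Submodule ℂ (n → ℂ) := LinearMap.range e.mulVecLin
  have hVe : ∀ u ∈ V, e *ᵥ u = u := by
    rintro _ ⟨v, rfl⟩
    rw [Matrix.mulVecLin_apply, Matrix.mulVec_mulVec, hee]
  have heV : ∀ u, e *ᵥ u ∈ V := fun u => ⟨u, rfl⟩
  let B0 : LinearMap.BilinForm ℂ (n → ℂ) := Matrix.toBilin' Q'
  have hB0 : ∀ u v, B0 u v = u ⬝ᵥ Q' *ᵥ v := fun u v => Matrix.toBilin'_apply' Q' u v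
  have hB0s : ∀ u v, B0 u v = B0 v u := by
    intro u v
    rw [hB0, hB0, Matrix.dotProduct_mulVec, ← Matrix.mulVec_transpose, hQs, dotProduct_comm]
  have hB0e : ∀ u v, B0 (e *ᵥ u) v = B0 u (e *ᵥ v) := by
    intro u v
    rw [hB0, hB0, Matrix.mulVec_mulVec, ← hadj, ← Matrix.mulVec_mulVec, Matrix.dotProduct_mulVec u,
      ← Matrix.mulVec_transpose, Matrix.transpose_transpose]
  let B : LinearMap.BilinForm ℂ V := B0.restrict V
  have hB : ∀ u v : V, B u v = B0 (u : n → ℂ) (v : n → ℂ) := fun u v => rfl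
  have hsym : LinearMap.IsSymm B := ⟨fun u v => by
    rw [RingHom.id_apply, hB, hB]
    exact hB0s _ _⟩
  have hsep : B.SeparatingLeft := by
    rintro ⟨u, hu⟩ h
    apply Subtype.ext
    change u = 0
    have h1 : ∀ v, B0 u v = 0 := by
      intro v
      have h2 := h ⟨e *ᵥ v, heV v⟩
      rw [hB] at h2
      change B0 u (e *ᵥ v) = 0 at h2
      rw [← hB0e, hVe u hu] at h2
      exact h2
    have h2 : Q' *ᵥ u = 0 := by
      funext i
      have h3 := h1 (Pi.single i 1)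
      rw [hB0s, hB0, single_one_dotProduct] at h3
      exact h3
    have h3 : IsUnit Q'.det := isUnit_iff_ne_zero.mpr hQd
    have h4 : Q'⁻¹ *ᵥ (Q' *ᵥ u) = u := by
      rw [Matrix.mulVec_mulVec, Matrix.nonsing_inv_mul Q' h3, Matrix.one_mulVec]
    rw [← h4, h2, Matrix.mulVec_zero]
  have : Invertible (2 : ℂ) := invertibleOfNonzero two_ne_zero
  obtain ⟨v, hv⟩ := LinearMap.BilinForm.exists_orthogonal_basis hsym
  have hne : ∀ i, B (v i) (v i) ≠ 0 := fun i =>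
    hv.not_isOrtho_basis_self_of_separatingLeft hsep i
  choose c hc using fun i => IsAlgClosed.exists_pow_nat_eq (B (v i) (v i)) (n := 2) two_pos
  have hc0 : ∀ i, c i ≠ 0 := by
    intro i h
    apply hne i
    rw [← hc i, h]
    ring
  let w : Fin e.rank → (n → ℂ) := fun i => (c i)⁻¹ • ((v i : V) : n → ℂ)
  have hwV : ∀ i, w i ∈ V := fun i => V.smul_mem _ (v i).2
  have hww : ∀ i j, B0 (w i) (w j) = if i = j then 1 else 0 := by
    intro i j
    have h1 : B0 (w i) (w j) = (c i)⁻¹ * ((c j)⁻¹ * B (v i) (v j)) := by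
      change B0 ((c i)⁻¹ • ((v i : V) : n → ℂ)) ((c j)⁻¹ • ((v j : V) : n → ℂ)) = _
      rw [map_smul, map_smul, LinearMap.smul_apply, smul_eq_mul, smul_eq_mul, hB]
      ring
    rw [h1]
    by_cases h : i = j
    · subst h
      rw [if_pos rfl, ← hc i]
      field_simp [hc0 i]
    · rw [if_neg h]
      have h2 : B (v i) (v j) = 0 := hv h
      rw [h2, mul_zero, mul_zero]
  let W : Matrix n (Fin e.rank) ℂ := Matrix.of fun a i => w i a
  have hW : ∀ i, Wᵀ i = w i := fun i => rfl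
  have h1 : Wᵀ * Q' * W = 1 := by
    ext i j
    rw [Matrix.one_apply, ← hww i j, hB0, Matrix.mul_assoc, Matrix.mul_apply']
    congr 1
  refine ⟨W, h1, ?_⟩
  have h2 : ∀ i, e *ᵥ w i = w i := fun i => hVe _ (hwV i)
  have heW : e * W = W := by
    ext a i
    exact congrFun (h2 i) a
  have hWe : Wᵀ * Q' * e = Wᵀ * Q' := by
    have h3 : Wᵀ * eᵀ = Wᵀ := by rw [← Matrix.transpose_mul, heW]
    rw [Matrix.mul_assoc, ← hadj, ← Matrix.mul_assoc, h3]
  have hspan : ∀ u ∈ V, ∃ b : Fin e.rank → ℂ, u = W *ᵥ b := by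
    intro u hu
    refine ⟨fun i => v.repr ⟨u, hu⟩ i * c i, ?_⟩
    have h3 : (∑ i, v.repr ⟨u, hu⟩ i • v i : V) = ⟨u, hu⟩ := v.sum_repr _
    have h4 := congrArg (fun z : V => (z : n → ℂ)) h3
    simp only [Submodule.coe_sum, Submodule.coe_smul] at h4
    refine h4.symm.trans ?_
    funext a
    rw [Finset.sum_apply, Matrix.mulVec, dotProduct]
    refine Finset.sum_congr rfl fun i _ => ?_
    rw [Pi.smul_apply, smul_eq_mul]
    change _ = (c i)⁻¹ * ((v i : V) : n → ℂ) a * _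
    field_simp [hc0 i]
  have h3 : W * (Wᵀ * Q') * e = e := by
    apply Matrix.toLin'.injective
    refine LinearMap.ext fun u => ?_
    rw [Matrix.toLin'_apply, Matrix.toLin'_apply, ← Matrix.mulVec_mulVec]
    obtain ⟨b, hb⟩ := hspan _ (heV u)
    rw [hb, Matrix.mulVec_mulVec, Matrix.mul_assoc, h1, Matrix.mul_one]
  rw [Matrix.mul_assoc, hWe] at h3
  exact h3

private theorem assemble_aux
    {Q' : Matrix n n ℂ} {k : ℕ}
    (e : Fin k → Matrix n n ℂ) (hee : ∀ i, e i * e i = e i)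
    (hsum : ∑ i, e i = 1) (d : Fin k → ℕ)
    (hcore : ∀ (L : Submodule ℂ (∀ i, Matrix (Fin (d i)) (Fin (d i)) ℂ))
      (_ : ∀ x ∈ L, ∀ i, (x i)ᵀ = -x i)
      (_ : ∀ x ∈ L, ∀ y ∈ L, (fun i => x i * y i - y i * x i) ∈ L)
      (_ : ∀ i, ∀ y : Matrix (Fin (d i)) (Fin (d i)) ℂ, yᵀ = -y → ∃ x ∈ L, x i = y)
      (_ : ∀ i j, i ≠ j → ∀ T : Matrix (Fin (d j)) (Fin (d i)) ℂ, (∀ x ∈ L, T * x i = x j * T) → T = 0)
      (x : ∀ i, Matrix (Fin (d i)) (Fin (d i)) ℂ) (_ : ∀ i, (x i)ᵀ = -x i), x ∈ L)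
    (L : Submodule ℂ (Matrix n n ℂ))
    (hbr : ∀ X ∈ L, ∀ Y ∈ L, X * Y - Y * X ∈ L) (hsk : ∀ X ∈ L, Xᵀ * Q' + Q' * X = 0)
    (hc : ∀ X ∈ L, ∀ i, X * e i = e i * X)
    (hfull : ∀ i X, e i * X * e i = X → Xᵀ * Q' + Q' * X = 0 → ∃ Y ∈ L, Y * e i = X)
    (hT : ∀ i j, i ≠ j → ∀ T, e j * T * e i = T → (∀ X ∈ L, T * X = X * T) → T = 0)
    (W : ∀ i, Matrix n (Fin (d i)) ℂ) (V : ∀ i, Matrix (Fin (d i)) n ℂ)
    (hVW : ∀ i, V i * W i = 1) (hWV : ∀ i, W i * V i = e i)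
    (hVt : ∀ i, (V i)ᵀ = Q' * W i) (hWt : ∀ i, (W i)ᵀ * Q' = V i)
    {X : Matrix n n ℂ} (hX : Xᵀ * Q' + Q' * X = 0) (hXc : ∀ i, X * e i = e i * X) : X ∈ L := by
  have hVe : ∀ i, V i * e i = V i := by
    intro i
    rw [← hWV, ← Matrix.mul_assoc, hVW, Matrix.one_mul]
  have heW : ∀ i, e i * W i = W i := by
    intro i
    rw [← hWV, Matrix.mul_assoc, hVW, Matrix.mul_one]
  let φ : Matrix n n ℂ →ₗ[ℂ] (∀ i, Matrix (Fin (d i)) (Fin (d i)) ℂ) :=
    { toFun := fun X i => V i * X * W i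
      map_add' := by
        intro a b
        funext i
        rw [Matrix.mul_add, Matrix.add_mul]
        rfl
      map_smul' := by
        intro c a
        funext i
        rw [Matrix.mul_smul, Matrix.smul_mul]
        rfl }
  have hφ : ∀ X i, φ X i = V i * X * W i := fun X i => rfl
  have hskφ : ∀ Y : Matrix n n ℂ, Yᵀ * Q' + Q' * Y = 0 → ∀ i, (φ Y i)ᵀ = -φ Y i := by
    intro Y hY i
    rw [hφ, Matrix.transpose_mul, Matrix.transpose_mul, hVt, ← Matrix.mul_assoc Yᵀ,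
      eq_neg_of_add_eq_zero_left hY, ← hWt]
    simp only [Matrix.neg_mul, Matrix.mul_neg, Matrix.mul_assoc]
  have hrec : ∀ Y : Matrix n n ℂ, (∀ i, Y * e i = e i * Y) → Y = ∑ i, W i * φ Y i * V i := by
    intro Y hY
    have h1 : ∀ i, W i * φ Y i * V i = Y * e i := by
      intro i
      rw [hφ, ← Matrix.mul_assoc, ← Matrix.mul_assoc, hWV, Matrix.mul_assoc _ (W i), hWV, ← hY,
        Matrix.mul_assoc, hee]
    rw [Finset.sum_congr rfl fun i _ => h1 i, ← Finset.mul_sum, hsum, Matrix.mul_one]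
  have key := hcore (L.map φ) ?_ ?_ ?_ ?_ (φ X) (hskφ X hX)
  · obtain ⟨Y, hY, hYX⟩ := key
    have h1 := hrec Y (hc Y hY)
    rw [hYX, ← hrec X hXc] at h1
    rw [← h1]
    exact hY
  · rintro _ ⟨Y, hY, rfl⟩ i
    exact hskφ Y (hsk Y hY) i
  · rintro _ ⟨Y, hY, rfl⟩ _ ⟨Z, hZ, rfl⟩
    refine ⟨Y * Z - Z * Y, hbr Y hY Z hZ, ?_⟩
    funext i
    have h1 : ∀ A B : Matrix n n ℂ, (∀ i, B * e i = e i * B) → φ A i * φ B i = V i * (A * B) * W i := by
      intro A B hB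
      rw [hφ, hφ]
      calc V i * A * W i * (V i * B * W i) = V i * A * (W i * V i) * B * W i := by
            simp only [Matrix.mul_assoc]
        _ = V i * A * (e i * B) * W i := by rw [hWV]; simp only [Matrix.mul_assoc]
        _ = V i * A * B * (e i * W i) := by rw [← hB i]; simp only [Matrix.mul_assoc]
        _ = V i * (A * B) * W i := by rw [heW]; simp only [Matrix.mul_assoc]
    change φ (Y * Z - Z * Y) i = φ Y i * φ Z i - φ Z i * φ Y i
    rw [h1 Y Z (hc Z hZ), h1 Z Y (hc Y hY), hφ, Matrix.mul_sub, Matrix.sub_mul]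
  · intro i y hy
    obtain ⟨Y, hY, hYe⟩ := hfull i (W i * y * V i) (by
      calc e i * (W i * y * V i) * e i = (e i * W i) * y * (V i * e i) := by
            simp only [Matrix.mul_assoc]
        _ = W i * y * V i := by rw [heW, hVe]) (by
      rw [Matrix.transpose_mul, Matrix.transpose_mul, hVt, hy]
      have h1 : (W i)ᵀ * Q' = V i := hWt i
      calc Q' * W i * (-y * (W i)ᵀ) * Q' + Q' * (W i * y * V i)
          = -(Q' * W i * y * ((W i)ᵀ * Q')) + Q' * W i * y * V i := by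
            simp only [Matrix.mul_assoc, Matrix.neg_mul, Matrix.mul_neg]
        _ = 0 := by rw [h1]; abel)
    refine ⟨φ Y, ⟨Y, hY, rfl⟩, ?_⟩
    calc φ Y i = V i * (Y * e i) * W i := by
          rw [hφ]
          conv_lhs => rw [← heW i]
          simp only [Matrix.mul_assoc]
      _ = (V i * W i) * y * (V i * W i) := by rw [hYe]; simp only [Matrix.mul_assoc]
      _ = y := by rw [hVW, Matrix.one_mul, Matrix.mul_one]
  · intro i j hij T hTx
    have h0 := hT i j hij (W j * T * V i) (by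
      calc e j * (W j * T * V i) * e i = (e j * W j) * T * (V i * e i) := by
            simp only [Matrix.mul_assoc]
        _ = W j * T * V i := by rw [heW, hVe]) (by
      intro Y hY
      have h1 := hTx (φ Y) ⟨Y, hY, rfl⟩
      rw [hφ, hφ] at h1
      calc W j * T * V i * Y = W j * T * (V i * (e i * Y)) := by
            rw [← Matrix.mul_assoc (V i), hVe]; simp only [Matrix.mul_assoc]
        _ = W j * (T * (V i * Y * W i)) * V i := by
            rw [← hc Y hY i, ← hWV i]; simp only [Matrix.mul_assoc]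
        _ = (W j * V j) * Y * W j * T * V i := by rw [h1]; simp only [Matrix.mul_assoc]
        _ = Y * (e j * W j) * T * V i := by
            rw [hWV, ← hc Y hY j]; simp only [Matrix.mul_assoc]
        _ = Y * (W j * T * V i) := by rw [heW]; simp only [Matrix.mul_assoc])
    calc T = (V j * W j) * T * (V i * W i) := by rw [hVW, hVW, Matrix.one_mul, Matrix.mul_one]
      _ = V j * (W j * T * V i) * W i := by simp only [Matrix.mul_assoc]
      _ = 0 := by rw [h0, Matrix.mul_zero, Matrix.zero_mul]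

/-- `assemble` with the core theorem `TR.core` (block TR-3) as a hypothesis -/
theorem assemble_of
    (hcore : ∀ {k : ℕ} (d : Fin k → ℕ) (_ : ∀ i, d i = 1 ∨ 9 ≤ d i)
      (L : Submodule ℂ (∀ i, Matrix (Fin (d i)) (Fin (d i)) ℂ))
      (_ : ∀ x ∈ L, ∀ i, (x i)ᵀ = -x i)
      (_ : ∀ x ∈ L, ∀ y ∈ L, (fun i => x i * y i - y i * x i) ∈ L)
      (_ : ∀ i, ∀ y : Matrix (Fin (d i)) (Fin (d i)) ℂ, yᵀ = -y → ∃ x ∈ L, x i = y)
      (_ : ∀ i j, i ≠ j → ∀ T : Matrix (Fin (d j)) (Fin (d i)) ℂ, (∀ x ∈ L, T * x i = x j * T) → T = 0)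
      (x : ∀ i, Matrix (Fin (d i)) (Fin (d i)) ℂ) (_ : ∀ i, (x i)ᵀ = -x i), x ∈ L)
    {Q' : Matrix n n ℂ} (hQs : Q'ᵀ = Q') (hQd : Q'.det ≠ 0) {k : ℕ}
    (e : Fin k → Matrix n n ℂ) (hee : ∀ i, e i * e i = e i) (hef : ∀ i j, i ≠ j → e i * e j = 0)
    (hsum : ∑ i, e i = 1) (hadj : ∀ i, (e i)ᵀ * Q' = Q' * e i)
    (hd : ∀ i, (e i).rank = 1 ∨ 9 ≤ (e i).rank) (L : Submodule ℂ (Matrix n n ℂ))
    (hbr : ∀ X ∈ L, ∀ Y ∈ L, X * Y - Y * X ∈ L) (hsk : ∀ X ∈ L, Xᵀ * Q' + Q' * X = 0)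
    (hc : ∀ X ∈ L, ∀ i, X * e i = e i * X)
    (hfull : ∀ i X, e i * X * e i = X → Xᵀ * Q' + Q' * X = 0 → ∃ Y ∈ L, Y * e i = X)
    (hT : ∀ i j, i ≠ j → ∀ T, e j * T * e i = T → (∀ X ∈ L, T * X = X * T) → T = 0)
    {X : Matrix n n ℂ} (hX : Xᵀ * Q' + Q' * X = 0) (hXc : ∀ i, X * e i = e i * X) : X ∈ L := by
  choose W hW1 hW2 using fun i => exists_orth hQs hQd (hee i) (hadj i)
  refine assemble_aux e hee hsum (fun i => (e i).rank) (hcore _ hd) L hbr hsk hc hfull hT W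
    (fun i => (W i)ᵀ * Q') hW1 hW2 (fun i => ?_) (fun i => rfl) hX hXc
  rw [Matrix.transpose_mul, Matrix.transpose_transpose, hQs]

theorem assemble {Q' : Matrix n n ℂ} (hQs : Q'ᵀ = Q') (hQd : Q'.det ≠ 0) {k : ℕ}
    (e : Fin k → Matrix n n ℂ) (hee : ∀ i, e i * e i = e i) (hef : ∀ i j, i ≠ j → e i * e j = 0)
    (hsum : ∑ i, e i = 1) (hadj : ∀ i, (e i)ᵀ * Q' = Q' * e i)
    (hd : ∀ i, (e i).rank = 1 ∨ 9 ≤ (e i).rank) (L : Submodule ℂ (Matrix n n ℂ))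
    (hbr : ∀ X ∈ L, ∀ Y ∈ L, X * Y - Y * X ∈ L) (hsk : ∀ X ∈ L, Xᵀ * Q' + Q' * X = 0)
    (hc : ∀ X ∈ L, ∀ i, X * e i = e i * X)
    (hfull : ∀ i X, e i * X * e i = X → Xᵀ * Q' + Q' * X = 0 → ∃ Y ∈ L, Y * e i = X)
    (hT : ∀ i j, i ≠ j → ∀ T, e j * T * e i = T → (∀ X ∈ L, T * X = X * T) → T = 0)
    {X : Matrix n n ℂ} (hX : Xᵀ * Q' + Q' * X = 0) (hXc : ∀ i, X * e i = e i * X) : X ∈ L :=
  assemble_of TR.core hQs hQd e hee hef hsum hadj hd L hbr hsk hc hfull hT hX hXc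

/-- the same with ranks one or at least five and not eight -/
theorem assemble' {Q' : Matrix n n ℂ} (hQs : Q'ᵀ = Q') (hQd : Q'.det ≠ 0) {k : ℕ}
    (e : Fin k → Matrix n n ℂ) (hee : ∀ i, e i * e i = e i) (_hef : ∀ i j, i ≠ j → e i * e j = 0)
    (hsum : ∑ i, e i = 1) (hadj : ∀ i, (e i)ᵀ * Q' = Q' * e i)
    (hd : ∀ i, (e i).rank = 1 ∨ 5 ≤ (e i).rank ∧ (e i).rank ≠ 8) (L : Submodule ℂ (Matrix n n ℂ))
    (hbr : ∀ X ∈ L, ∀ Y ∈ L, X * Y - Y * X ∈ L) (hsk : ∀ X ∈ L, Xᵀ * Q' + Q' * X = 0)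
    (hc : ∀ X ∈ L, ∀ i, X * e i = e i * X)
    (hfull : ∀ i X, e i * X * e i = X → Xᵀ * Q' + Q' * X = 0 → ∃ Y ∈ L, Y * e i = X)
    (hT : ∀ i j, i ≠ j → ∀ T, e j * T * e i = T → (∀ X ∈ L, T * X = X * T) → T = 0)
    {X : Matrix n n ℂ} (hX : Xᵀ * Q' + Q' * X = 0) (hXc : ∀ i, X * e i = e i * X) : X ∈ L := by
  choose W hW1 hW2 using fun i => exists_orth hQs hQd (hee i) (hadj i)
  refine assemble_aux e hee hsum (fun i => (e i).rank) (TR.core' _ hd) L hbr hsk hc hfull hT W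
    (fun i => (W i)ᵀ * Q') hW1 hW2 (fun i => ?_) (fun i => rfl) hX hXc
  rw [Matrix.transpose_mul, Matrix.transpose_transpose, hQs]

end MH
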