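import Pool.Agent.Helper88.TR.RxOf
import Pool.Agent.Helper16.TR.Q2
import Pool.Agent.Helper21.TR.Nontriv

/-!
A linear form which vanishes on the weights that pair to one with a long root of value two is
constant on the weights of value one orthogonal to this root.
-/

set_option linter.unusedSectionVars false
set_option linter.unusedVariables false

open Module

namespace TR

open Pool.Agent.Helper54.MT RootPairing

variable {ι K M N : Type*} [Field K] [CharZero K] [AddCommGroup M] [Module K M]
  [AddCommGroup N] [Module K N] {P : RootPairing ι K M N} [Fintype ι] [P.IsCrystallographic]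
  [P.IsReduced] [P.IsIrreducible] [DecidableEq M]

/-- The long roots in the sense of `Long` are the roots of maximal length. -/
theorem Sit.len_long {X : Finset M} {s : Module.Dual K M} (h : Sit P X s) {θ : ι}
    (hθ : Long P θ) {l : ℤ} {i0 : ι} (hi0 : len P i0 = 2 * l) (hlθ : len P θ = l) : False := by
  have hl0 := len_pos P θ
  obtain ⟨k, hk1, hk2⟩ := P.exists_form_eq_form_and_form_ne_zero
    (P.posRootForm ℤ).toInvariantForm θ i0
  have e1 : len P k = len P i0 := by
    have h1 : (len P k : K) = (len P i0 : K) := by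
      rw [← fm_self, ← fm_self]
      exact hk1
    exact_mod_cast h1
  have e2 : P.pairingIn ℤ θ k ≠ 0 := by
    intro h0
    have h1 := fm_root_root P θ k
    rw [h0, Int.cast_zero, zero_mul] at h1
    exact hk2 ((mul_eq_zero.mp h1).resolve_left two_ne_zero)
  have h3 := pair_len P k θ
  rw [e1, hi0, hlθ] at h3
  have h4 : (P.pairingIn ℤ k θ - 2 * P.pairingIn ℤ θ k) * l = 0 := by linear_combination h3
  have h5 : P.pairingIn ℤ k θ = 2 * P.pairingIn ℤ θ k := by
    rcases mul_eq_zero.mp h4 with h5 | h5 <;> omega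
  have h6 : k ≠ θ := by
    rintro rfl
    omega
  have h7 : P.root k ≠ -P.root θ := by
    intro hc
    have := len_of_neg hc
    omega
  have h8 := hθ k h6 h7
  omega

/-- Nontriviality for root pairings. -/
theorem Sit.nontriv {X : Finset M} {s : Module.Dual K M} (h : Sit P X s)
    (hspan : P.rootSpan K = ⊤) (hpar : Par P X) {θ : ι} (hθ : Long P θ)
    (hsθ : s (P.root θ) = 2) {x0 y0 : M} (hx0 : x0 ∈ X) (hy0 : y0 ∈ X) (hxy : x0 ≠ y0)
    (hx1 : P.coroot' θ x0 = 1) (hy1 : P.coroot' θ y0 = 1) {g : ι} (sg : s (P.root g) = 0)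
    (hg : P.coroot' θ (P.root g) = 0) :
    ∃ z ∈ X, P.coroot' θ z = 1 ∧ P.coroot' g z ≠ 0 := by
  by_cases hall : ∀ i j, len P i = len P j
  · have hl : ∀ i, len P i = len P θ := fun i => hall i θ
    obtain ⟨z, hz, h1, h2⟩ := SL.nontriv (h.toSL hspan hpar hl) (i := P.root θ) (g := P.root g)
      (Finset.mem_image.mpr ⟨θ, Finset.mem_univ _, rfl⟩) hsθ
      (Finset.mem_image.mpr ⟨g, Finset.mem_univ _, rfl⟩) sg (by rw [bf_one (hl θ)]; exact hg)
    rw [bf_one (hl θ)] at h1
    rw [bf_one (hl g)] at h2
    exact ⟨z, hz, h1, h2⟩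
  · rw [not_forall] at hall
    obtain ⟨i1, hall⟩ := hall
    rw [not_forall] at hall
    obtain ⟨j1, hij⟩ := hall
    obtain ⟨i0, j0, hij0⟩ : ∃ i0 j0, len P i0 = 2 * len P j0 := by
      rcases h.len_cases i1 j1 with h1 | h1 | h1
      · exact absurd h1 hij
      · exact ⟨i1, j1, h1⟩
      · exact ⟨j1, i1, h1⟩
    set l := len P j0 with hl
    have hl0 : 0 < l := len_pos P j0
    have hlen : ∀ i, len P i = l ∨ len P i = 2 * l := by
      intro i
      have h1 := h.len_cases i i0
      have h2 := h.len_cases i j0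
      rw [hij0] at h1
      rw [← hl] at h2
      omega
    have hlθ : len P θ = 2 * l := by
      rcases hlen θ with h1 | h1
      · exact (h.len_long hθ hij0 h1).elim
      · exact h1
    have hmem : P.root g ∈ ofLen P (2 * l) ∪ ofLen P l := by
      rw [Finset.mem_union, mem_ofLen, mem_ofLen]
      rcases hlen g with h1 | h1
      · right; exact ⟨g, h1, rfl⟩
      · left; exact ⟨g, h1, rfl⟩
    have htwo : ∀ x : M, P.coroot' θ x = 1 → bf P l x (P.root θ) = 2 := by
      intro x hx
      rw [bf_two hlθ, hx, mul_one]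
    obtain ⟨z, hz, h1, h2⟩ := TL.nontriv (h.toTL hspan hpar hlen hij0 hl.symm)
      (i := P.root θ) (g := P.root g) (mem_ofLen.mpr ⟨θ, hlθ, rfl⟩) hsθ hx0 hy0 hxy
      (htwo x0 hx1) (htwo y0 hy1) hmem sg (by rw [bf_two hlθ, hg, mul_zero])
    refine ⟨z, hz, ?_, ?_⟩
    · rw [bf_two hlθ] at h1
      have h3 : (2 : K) * (P.coroot' θ z - 1) = 0 := by linear_combination h1
      have h4 := (mul_eq_zero.mp h3).resolve_left two_ne_zero
      linear_combination h4
    · intro h3
      apply h2
      rcases hlen g with h4 | h4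
      · rw [bf_one h4, h3]
      · rw [bf_two h4, h3, mul_zero]

/-- Q3. -/
theorem rx_const {X : Finset M} (hW : WeightSet P (X : Set M)) (hne : X.Nonempty)
    (s : Module.Dual K M) (hs : ∀ x ∈ X, s x = 1 ∨ s x = -1)
    (hspan : P.rootSpan K = ⊤) (hpar : Par P X) {θ : ι} (hθ : Long P θ)
    (hsθ : s (P.root θ) = 2) {x0 y0 : M} (hx0 : x0 ∈ X) (hy0 : y0 ∈ X) (hxy : x0 ≠ y0)
    (hx1 : P.coroot' θ x0 = 1) (hy1 : P.coroot' θ y0 = 1)
    (f : Module.Dual K M) (hf : ∀ x ∈ X, P.coroot' θ x = 1 → f x = 0)
    {x y : M} (hx : x ∈ X) (hy : y ∈ X) (sx : s x = 1) (sy : s y = 1)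
    (hxθ : P.coroot' θ x = 0) (hyθ : P.coroot' θ y = 0) : f x = f y := by
  have h : Sit P X s := ⟨hW, hne, hs⟩
  have h3ne : (3 : K) ≠ 1 := by norm_num
  have h3ne' : (3 : K) ≠ -1 := by norm_num
  -- weights of value one pair to zero or one with `θ`
  have hnn : ∀ z ∈ X, s z = 1 → P.coroot' θ z = 0 ∨ P.coroot' θ z = 1 := by
    intro z hz sz
    rcases hW.small z hz θ with h1 | h1 | h1
    · exfalso
      have h2 : P.coroot' θ (-z) = 1 := by rw [map_neg, h1, neg_neg]
      have h3 := hs _ (sub_root_mem hW (hW.neg z hz) h2)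
      rw [map_sub, map_neg, sz, hsθ] at h3
      rcases h3 with h3 | h3
      · exact h3ne' (by linear_combination -h3)
      · exact h3ne (by linear_combination -h3)
    · exact Or.inl h1
    · exact Or.inr h1
  have hchain : Relation.ReflTransGen (fun u v => f u = f v) x y := by
    obtain ⟨l, hl⟩ := hW.conn x hx y hy
    refine chain_aux hW _ (fun z => s z = 1 ∧ P.coroot' θ z = 0) ?_ hy ⟨sy, hyθ⟩ l.length x hx
      ⟨sx, hxθ⟩ ⟨l, le_rfl, hl⟩
    rintro x hx y hy ⟨hsx, hxt⟩ ⟨hsy, hyt⟩ i h1 h2
    have e1 : x - P.root i ∈ X := sub_root_mem hW hx h1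
    have e2 : y + P.root i ∈ X := by
      have h3 : P.coroot' i (-y) = 1 := by rw [map_neg, h2, neg_neg]
      have h4 := hW.neg _ (sub_root_mem hW (hW.neg y hy) h3)
      have h5 : -(-y - P.root i) = y + P.root i := by abel
      rw [h5] at h4
      exact h4
    have h6 := hs _ e1
    have h7 := hs _ e2
    rw [map_sub, hsx] at h6
    rw [map_add, hsy] at h7
    have h0 : s (P.root i) = 0 := by
      rcases h6 with h6 | h6
      · linear_combination -h6
      · rcases h7 with h7 | h7
        · linear_combination h7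
        · exfalso
          have h8 : s (P.root i) = 2 := by linear_combination -h6
          have h9 : s (P.root i) = -2 := by linear_combination h7
          rw [h8] at h9
          have : (4 : K) = 0 := by linear_combination h9
          exact (by norm_num : (4 : K) ≠ 0) this
    have s1 : s (x - P.root i) = 1 := by rw [map_sub, h0, hsx, sub_zero]
    have s2 : s (y + P.root i) = 1 := by rw [map_add, h0, hsy, add_zero]
    have k1 := hnn _ e1 s1
    have k2 := hnn _ e2 s2
    rw [map_sub, hxt, zero_sub] at k1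
    rw [map_add, hyt, zero_add] at k2
    have k0 : P.coroot' θ (P.root i) = 0 := by
      rcases k2 with k2 | k2
      · exact k2
      · exfalso
        rw [k2] at k1
        rcases k1 with k1 | k1
        · exact one_ne_zero (by linear_combination -k1 : (1 : K) = 0)
        · exact two_ne_zero (by linear_combination -k1 : (2 : K) = 0)
    refine ⟨?_, s1, by rw [map_sub, hxt, k0, sub_zero]⟩
    -- `f (root i) = 0`
    obtain ⟨z, hz, z1, z2⟩ := h.nontriv hspan hpar hθ hsθ hx0 hy0 hxy hx1 hy1 h0 k0
    have hfi : f (P.root i) = 0 := by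
      rcases hW.small z hz i with h8 | h8 | h8
      · have h9 : P.coroot' i (-z) = 1 := by rw [map_neg, h8, neg_neg]
        have h10 := hW.neg _ (sub_root_mem hW (hW.neg z hz) h9)
        have h11 : -(-z - P.root i) = z + P.root i := by abel
        rw [h11] at h10
        have h12 := hf _ h10 (by rw [map_add, z1, k0, add_zero])
        rw [map_add, hf z hz z1, zero_add] at h12
        exact h12
      · exact absurd h8 z2
      · have h10 := sub_root_mem hW hz h8
        have h12 := hf _ h10 (by rw [map_sub, z1, k0, sub_zero])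
        rw [map_sub, hf z hz z1, zero_sub, neg_eq_zero] at h12
        exact h12
    rw [map_sub, hfi, sub_zero]
  clear hx hy sx sy hxθ hyθ
  induction hchain with
  | refl => rfl
  | tail _ h1 ih => exact ih.trans h1

end TR
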