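import Pool.Agent.Helper88.MT.Extremal
import Pool.Agent.Helper54.MT.Parity
import Pool.Agent.Helper88.TR.RDefs

/-!
Blocks B6 (parity of strongly orthogonal decompositions of twice a weight of a symplectic module)
and B7 (long root vectors are extremal), in unfolded form.
-/

open Module LieModule LieAlgebra LieAlgebra.IsKilling

attribute [local instance 100] LieRing.ofAssociativeRing

namespace TR

open MTP MTP.MF Pool.Agent.Helper54.MT

section Root

variable {ι K M N : Type*} [Field K] [CharZero K] [AddCommGroup M] [Module K M]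
  [AddCommGroup N] [Module K N] {P : RootPairing ι K M N} [Fintype ι] [P.IsCrystallographic]
  [P.IsReduced]

/-- The number of roots pairing to one with a small weight has the parity of the value of the
weight on the sum of the positive coroots. -/
theorem card_rho (b : P.Base) {x : M} (hx : Small P x) {c : ℤ}
    (hc : P.toLinearMap x (rho2 b) = (c : K)) (S : Finset ι)
    (hS : ∀ i, i ∈ S ↔ P.coroot' i x = 1) : ((S.card : ℤ) : ZMod 2) = (c : ZMod 2) := by
  classical
  choose a ha ha' using fun i => hx.int i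
  have hneg : ∀ i, a (P.reflectionPerm i i) = - a i := by
    intro i
    have h1 : P.coroot' (P.reflectionPerm i i) x = - P.coroot' i x := by
      have h2 : P.coroot (P.reflectionPerm i i) = - P.coroot i := by
        rw [P.coroot_reflectionPerm, P.coreflection_apply_self]
      show P.toLinearMap x (P.coroot (P.reflectionPerm i i)) = - P.toLinearMap x (P.coroot i)
      rw [h2, map_neg]
    rw [ha, ha] at h1
    exact_mod_cast h1
  have hinv : ∀ i, P.reflectionPerm (P.reflectionPerm i i) (P.reflectionPerm i i) = i := by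
    intro i
    let _ := P.indexNeg
    exact neg_neg i
  have hSa : ∀ i, i ∈ S ↔ a i = 1 := by
    intro i
    rw [hS, ha]
    exact_mod_cast Iff.rfl
  -- twice the cardinality
  have h1 : ∑ i, a i ^ 2 = 2 * (S.card : ℤ) := by
    have e1 : ∀ i, a i ^ 2 = (if a i = 1 then 1 else 0) + (if a i = -1 then 1 else 0) := by
      intro i
      rcases ha' i with h | h | h <;> rw [h] <;> norm_num
    have e2 : ∑ i, (if a i = -1 then (1 : ℤ) else 0) = ∑ i, (if a i = 1 then (1 : ℤ) else 0) := by
      refine Finset.sum_bij' (fun i _ => P.reflectionPerm i i) (fun i _ => P.reflectionPerm i i)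
        (fun i _ => Finset.mem_univ _) (fun i _ => Finset.mem_univ _) (fun i _ => hinv i)
        (fun i _ => hinv i) ?_
      intro i _
      rw [hneg]
      congr 1
      apply propext
      constructor <;> intro h <;> omega
    have e3 : ∑ i, (if a i = 1 then (1 : ℤ) else 0) = S.card := by
      rw [Finset.sum_boole]
      congr 2
      ext i
      rw [Finset.mem_filter, hSa]
      simp
    rw [Finset.sum_congr rfl fun i _ => e1 i, Finset.sum_add_distrib, e2, e3]
    ring
  have h2 := sum_even b (fun i => a i ^ 2) (by intro i; simp only [hneg]; ring)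
  rw [h1] at h2
  have h3 : (S.card : ℤ) = ∑ i with b.IsPos i, a i ^ 2 := by
    have h2' : 2 * (S.card : ℤ) = 2 * ∑ i with b.IsPos i, a i ^ 2 := by
      rw [h2]; simp
    linarith
  have h4 : c = ∑ i with b.IsPos i, a i := by
    have h5 : P.toLinearMap x (rho2 b) = ((∑ i with b.IsPos i, a i : ℤ) : K) := by
      rw [rho2, map_sum, Int.cast_sum]
      refine Finset.sum_congr rfl fun i _ => ?_
      exact ha i
    rw [hc] at h5
    exact_mod_cast h5
  rw [h3, h4, Int.cast_sum, Int.cast_sum]
  refine Finset.sum_congr rfl fun i _ => ?_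
  rcases ha' i with h | h | h <;> rw [h] <;> decide

end Root

section Lie

variable {K : Type*} [Field K] [CharZero K] [IsAlgClosed K]
  {L : Type*} [LieRing L] [LieAlgebra K L] [FiniteDimensional K L] [IsKilling K L]
  {H : LieSubalgebra K L} [H.IsCartanSubalgebra]
  {V : Type*} [AddCommGroup V] [Module K V] [FiniteDimensional K V]
  [LieRingModule L V] [LieModule K L V] {I : Type*} [Fintype I] (B : WB (V := V) H I)
  {ω : LinearMap.BilinForm K V}

/-- B6: parity, unfolded. -/
theorem par_unfolded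
    (hirr : ∀ W : Submodule K V, (∀ x : L, ∀ u ∈ W, ⁅x, u⁆ ∈ W) → W = ⊥ ∨ W = ⊤)
    (hnd : ω.Nondegenerate) (halt : ω.IsAlt)
    (hsk : ∀ (x : L) (u v : V), ω ⁅x, u⁆ v = - ω u ⁅x, v⁆)
    (hsmall : ∀ i, Small (rootSystem H) (B.w i)) [Nonempty H.root] (i0 : I)
    {A : Finset H.root} (hA1 : ∀ i ∈ A, (rootSystem H).coroot' i (B.w i0) = 1)
    (hA2 : Orth (rootSystem H) A)
    (hA : ∑ i ∈ A, (rootSystem H).root i = B.w i0 + B.w i0)
    (hA3 : ∀ i ∈ A, ∀ j ∈ A, i ≠ j →
      (rootSystem H).root i + (rootSystem H).root j ∉ Set.range (rootSystem H).root) :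
    Odd A.card := by
  classical
  obtain ⟨b⟩ := RootPairing.nonempty_base (rootSystem H)
  obtain ⟨c, hc, hodd⟩ := odd_rho B hirr hnd halt hsk b
  let S : Finset H.root := Finset.univ.filter fun i => (rootSystem H).coroot' i (B.w i0) = 1
  have hS : ∀ i, i ∈ S ↔ (rootSystem H).coroot' i (B.w i0) = 1 := by
    intro i; simp [S]
  have h1 := card_parity (hsmall i0) hA1 hA2 hA hA3 S hS
  have h2 := card_rho b (hsmall i0) (c := c i0) (hc i0) S hS
  have h3 : ((c i0 : ℤ) : ZMod 2) = 1 := by
    rw [ZMod.intCast_eq_one_iff_odd]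
    exact hodd i0
  rw [h3] at h2
  have h4 : (A.card : ZMod 2) = 1 := by
    rw [← h1, ← h2]; push_cast; rfl
  rw [ZMod.natCast_eq_one_iff_odd] at h4
  exact h4

omit [FiniteDimensional K V] in
/-- B7: long root vectors are extremal, unfolded. -/
theorem extremal_unfolded {θ : H.root}
    (hθ : ∀ i, i ≠ θ → (rootSystem H).root i ≠ -(rootSystem H).root θ →
      (rootSystem H).pairingIn ℤ i θ = -1 ∨ (rootSystem H).pairingIn ℤ i θ = 0 ∨
      (rootSystem H).pairingIn ℤ i θ = 1) {e : L} (he : e ∈ rootSpace H θ.1)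
    (hsq : toEnd K L V e * toEnd K L V e = 0) (x : L) :
    ∃ c : K, toEnd K L V e * toEnd K L V x * toEnd K L V e = c • toEnd K L V e := by
  classical
  by_cases he0 : e = 0
  · exact ⟨0, by rw [he0]; simp⟩
  -- values of weights on the coroot
  have hval : ∀ χ : Weight K H L, χ (coroot θ.1) = 0 ∨ χ (coroot θ.1) = -1 ∨
      χ (coroot θ.1) = 1 ∨ χ = θ.1 ∨ (χ : H → K) = -(θ.1 : H → K) := by
    intro χ
    by_cases h0 : χ.IsZero
    · left
      exact congrFun h0 _
    · have hmem : χ ∈ H.root := by simpa [LieSubalgebra.root] using h0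
      by_cases h1 : (⟨χ, hmem⟩ : H.root) = θ
      · right; right; right; left
        exact congrArg Subtype.val h1
      by_cases h2 : (rootSystem H).root ⟨χ, hmem⟩ = -(rootSystem H).root θ
      · right; right; right; right
        funext h
        exact LinearMap.congr_fun h2 h
      have h3 := hθ _ h1 h2
      have h4 : χ (coroot θ.1) = (((rootSystem H).pairingIn ℤ ⟨χ, hmem⟩ θ : ℤ) : K) := by
        rw [← pair_cast]
        rfl
      rw [h4]
      rcases h3 with h3 | h3 | h3 <;> rw [h3] <;> simp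
  have hθθ : θ.1 (coroot θ.1) = 2 := root_apply_coroot (H.isNonZero_coe_root θ)
  -- the element is extremal
  have hext : ∃ c : K, ⁅e, ⁅e, x⁆⁆ = c • e := by
    let U : Submodule K L :=
      { carrier := {x | ∃ c : K, ⁅e, ⁅e, x⁆⁆ = c • e}
        add_mem' := by
          rintro a b ⟨c, hc⟩ ⟨d, hd⟩
          exact ⟨c + d, by rw [lie_add, lie_add, hc, hd, add_smul]⟩
        zero_mem' := ⟨0, by simp⟩
        smul_mem' := by
          rintro k a ⟨c, hc⟩
          exact ⟨k * c, by rw [lie_smul, lie_smul, hc, smul_smul]⟩ }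
    have hmemU : ∀ z : L, z ∈ U ↔ ∃ c : K, ⁅e, ⁅e, z⁆⁆ = c • e := fun z => Iff.rfl
    clear_value U
    rw [← hmemU]
    refine root_induction (U := U) (H := H) ?_ x
    intro α z hz
    rw [hmemU]
    have h1 : ⁅e, ⁅e, z⁆⁆ ∈ rootSpace H ((θ.1 : H → K) + ((θ.1 : H → K) + (α : H → K))) :=
      lie_mem_genWeightSpace_of_mem_genWeightSpace he
        (lie_mem_genWeightSpace_of_mem_genWeightSpace he hz)
    rcases eq_or_ne (rootSpace H ((θ.1 : H → K) + ((θ.1 : H → K) + (α : H → K)))) ⊥
      with hbot | hbot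
    · rw [hbot, LieSubmodule.mem_bot] at h1
      exact ⟨0, by rw [h1, zero_smul]⟩
    · let χ : Weight K H L := ⟨(θ.1 : H → K) + ((θ.1 : H → K) + (α : H → K)), hbot⟩
      have hχ : ∀ h, χ h = θ.1 h + (θ.1 h + α h) := fun h => rfl
      by_cases hneg : (α : H → K) = -(θ.1 : H → K)
      · have h2 : (θ.1 : H → K) + ((θ.1 : H → K) + (α : H → K)) = (θ.1 : H → K) := by
          rw [hneg]; simp
        rw [h2] at h1
        exact mem_line he he0 h1
      · exfalso
        have h3 := hχ (coroot θ.1)
        rw [hθθ] at h3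
        obtain ⟨p, hp, hp'⟩ : ∃ p : ℤ, α (coroot θ.1) = (p : K) ∧
            (p = 0 ∨ p = -1 ∨ p = 1 ∨ p = 2) := by
          rcases hval α with h | h | h | h | h
          · exact ⟨0, by rw [h]; simp, by simp⟩
          · exact ⟨-1, by rw [h]; simp, by simp⟩
          · exact ⟨1, by rw [h]; simp, by simp⟩
          · exact ⟨2, by rw [h, hθθ]; simp, by simp⟩
          · exact absurd h hneg
        obtain ⟨q, hq, hq'⟩ : ∃ q : ℤ, χ (coroot θ.1) = (q : K) ∧
            (q = 0 ∨ q = -1 ∨ q = 1 ∨ q = 2 ∨ q = -2) := by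
          rcases hval χ with h | h | h | h | h
          · exact ⟨0, by rw [h]; simp, by simp⟩
          · exact ⟨-1, by rw [h]; simp, by simp⟩
          · exact ⟨1, by rw [h]; simp, by simp⟩
          · exact ⟨2, by rw [h, hθθ]; simp, by simp⟩
          · refine ⟨-2, ?_, by simp⟩
            rw [h, Pi.neg_apply, hθθ]; simp
        rw [hp, hq] at h3
        have h4 : q = 2 + (2 + p) := by exact_mod_cast h3
        omega
  obtain ⟨c, hc⟩ := hext
  refine ⟨-(c / 2), ?_⟩
  have h5 : toEnd K L V ⁅e, ⁅e, x⁆⁆ = c • toEnd K L V e := by rw [hc, map_smul]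
  rw [LieHom.map_lie, LieHom.map_lie, Ring.lie_def, Ring.lie_def] at h5
  have h6 : toEnd K L V e * (toEnd K L V e * toEnd K L V x - toEnd K L V x * toEnd K L V e) -
      (toEnd K L V e * toEnd K L V x - toEnd K L V x * toEnd K L V e) * toEnd K L V e =
      -((2 : K) • (toEnd K L V e * toEnd K L V x * toEnd K L V e)) := by
    have h7 : toEnd K L V e * (toEnd K L V e * toEnd K L V x - toEnd K L V x * toEnd K L V e) -
      (toEnd K L V e * toEnd K L V x - toEnd K L V x * toEnd K L V e) * toEnd K L V e =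
      (toEnd K L V e * toEnd K L V e) * toEnd K L V x -
      (toEnd K L V e * toEnd K L V x * toEnd K L V e +
      toEnd K L V e * toEnd K L V x * toEnd K L V e) +
      toEnd K L V x * (toEnd K L V e * toEnd K L V e) := by noncomm_ring
    rw [h7, hsq, two_smul]
    simp
  rw [h6] at h5
  have h8 : (2 : K) ≠ 0 := two_ne_zero
  have h9 : toEnd K L V e * toEnd K L V x * toEnd K L V e =
      (-(2 : K)⁻¹) • (-((2 : K) • (toEnd K L V e * toEnd K L V x * toEnd K L V e))) := by
    rw [smul_neg, neg_smul, neg_neg, smul_smul, inv_mul_cancel₀ h8, one_smul]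
  rw [h9, h5, smul_smul]
  congr 1
  ring

/-- B6: parity -/
theorem par (hirr : ∀ W : Submodule K V, (∀ x : L, ∀ u ∈ W, ⁅x, u⁆ ∈ W) → W = ⊥ ∨ W = ⊤)
    (hnd : ω.Nondegenerate) (halt : ω.IsAlt)
    (hsk : ∀ (x : L) (u v : V), ω ⁅x, u⁆ v = - ω u ⁅x, v⁆)
    (hsmall : ∀ i, Small (rootSystem H) (B.w i)) [Nonempty H.root]
    {X : Finset (Dual K H)} (hX : ∀ x ∈ X, ∃ i, B.w i = x) :
    Par (rootSystem H) X := by
  intro x hx A hA1 hA2 hA hA3
  obtain ⟨i0, rfl⟩ := hX x hx
  exact par_unfolded B hirr hnd halt hsk hsmall i0 hA1 hA2 hA hA3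

/-- B7: long root vectors are extremal -/
theorem extremal {θ : H.root} (hθ : Long (rootSystem H) θ) {e : L} (he : e ∈ rootSpace H θ.1)
    (hsq : toEnd K L V e * toEnd K L V e = 0) (x : L) :
    ∃ c : K, toEnd K L V e * toEnd K L V x * toEnd K L V e = c • toEnd K L V e :=
  extremal_unfolded hθ he hsq x

end Lie

end TR
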